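import Pool.Agent.H62.Toric.Main

/-!
# Kruskal-Katona inequalities for the toric g-vector of simple polytopes (affirmative answer)

Let `P` be a simple polytope of dimension `d` whose gamma-vector is nonnegative (in particular
this holds if the gamma-vector satisfies the Kruskal-Katona inequalities). Then the toric
g-vector of `P` satisfies the Kruskal-Katona inequalities.
-/

namespace Pool.Agent.Results.MP_41b5b1_co.ToricKK

open Pool.Agent.H62.Toric

theorem result {E : Type*} [NormedAddCommGroup E] [NormedSpace ℝ E] [FiniteDimensional ℝ E]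
    (P : Set E) (hP : IsPolytope P) (hne : P.Nonempty) (hs : IsSimplePolytope P)
    (γ : ℕ → ℤ) (hγ : IsGammaVector P γ) (h0 : γ 0 = 1)
    (hnn : ∀ j ≤ dimOf P / 2, 0 ≤ γ j) :
    KruskalKatona (dimOf P / 2) (toricGVector P) :=
  kruskalKatona_toric hP hne hs γ hγ h0 hnn

end Pool.Agent.Results.MP_41b5b1_co.ToricKK
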